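import Pool.Agent.H40.EGD.Targets

/-! CST: a function with constant modes depends only on the direction. -/

set_option autoImplicit false

namespace Pool.Agent.H38.EGD

open MeasureTheory Set Metric Filter Topology Pool.Agent.H93.BL Pool.Agent.H40.EGD
open Pool.Agent.H93.EN (av md rf)
open Pool.Agent.H93.EG (InvG T_MAIN)

theorem CST_meas {F : ℂ → ℂ → ℝ} (h : Measurable (Function.uncurry F)) (x : ℂ) :
    Measurable (F x) :=
  h.comp (measurable_const.prodMk measurable_id)

theorem CST_bd {ι : Type} {P : Polygon ι} {F : ℂ → ℂ → ℝ} (hF : InvG P F) (x : ℂ) :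
    ∃ C, ∀ w, |F x w| ≤ C :=
  ⟨1, fun w => by
    rw [abs_of_nonneg (hF.bd x w).1]
    exact (hF.bd x w).2⟩

theorem CST (hUNI : T_UNI) : T_CST := by
  intro ι P F hF hc
  choose c hc using hc
  have h : ∀ᵐ x ∂(volume.restrict P.Ω), ∀ k : ℤ, md (F x) k = c k := ae_all_iff.2 hc
  have hne : (volume.restrict P.Ω) ≠ 0 := by
    rw [Ne, Measure.restrict_eq_zero]
    exact (P.isOpen.measure_pos volume P.isConnected.nonempty).ne'
  haveI : (ae (volume.restrict P.Ω)).NeBot := ae_neBot.2 hne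
  obtain ⟨x₀, hx₀⟩ := h.exists
  refine ⟨x₀, ?_⟩
  filter_upwards [h] with x hx
  exact hUNI (F x) (F x₀) (CST_meas hF.meas x) (CST_meas hF.meas x₀) (CST_bd hF x) (CST_bd hF x₀)
    fun k => (hx k).trans (hx₀ k).symm

end Pool.Agent.H38.EGD
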